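import Pool.Agent.HVeronese.Geometry

/-!
Two cubic Veronese surfaces through thirteen general points of projective nine-space which meet
in a finite set.
-/

open scoped LinearAlgebra.Projectivization

namespace Pool.Agent.Results.MP_f58153_ag.CubicVeroneseSurfaces

/-- The Veronese map of degree `r` on vectors: the values at `v` of all monomials of degree `r`
in `n + 1` variables, a monomial being given by the multiset of its `r` variables. -/
def veroneseVec (n r : ℕ) (v : Fin (n + 1) → ℂ) : Sym (Fin (n + 1)) r → ℂ :=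
  fun m => ((m : Multiset (Fin (n + 1))).map v).prod

/-- The number `N = C(n + r, r)` of monomials of degree `r` in `n + 1` variables. -/
abbrev NN (n r : ℕ) : ℕ := (n + r).choose r

/-- An `r`-Veronese variety of dimension `n` in projective `(N - 1)`-space, `N = NN n r`: the
image of projective `n`-space under the Veronese map followed by an invertible linear map to the
space of homogeneous coordinates (the existence of such a map forces `N = NN n r`). -/
def IsVeroneseVariety (n r : ℕ) {N : ℕ} (V : Set (ℙ ℂ (Fin N → ℂ))) : Prop :=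
  ∃ g : (Sym (Fin (n + 1)) r → ℂ) ≃ₗ[ℂ] (Fin N → ℂ),
    V = {P | ∃ v : Fin (n + 1) → ℂ, v ≠ 0 ∧ ∃ h : g (veroneseVec n r v) ≠ 0,
      P = Projectivization.mk ℂ (g (veroneseVec n r v)) h}

/-- A property holds for general `m`-tuples of points of projective `(N - 1)`-space: it holds on
the complement of the zero set of a nonzero polynomial `F` in the homogeneous coordinates of the
`m` points, homogeneous in the coordinates of each point separately. -/
def HoldsForGeneral (m N : ℕ) (Q : (Fin m → ℙ ℂ (Fin N → ℂ)) → Prop) : Prop :=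
  ∃ (d : Fin m → ℕ) (F : MvPolynomial (Fin m × Fin N) ℂ), F ≠ 0 ∧
    F.IsWeightedHomogeneous (fun ij => (Pi.single ij.1 1 : Fin m → ℕ)) d ∧
    ∀ P : Fin m → ℙ ℂ (Fin N → ℂ),
      MvPolynomial.eval (fun ij => (P ij.1).rep ij.2) F ≠ 0 → Q P

open Pool.Agent.HVeronese

/-- The ten monomials as multisets. -/
def toSym : Fin 10 → Sym (Fin 3) 3 :=
  ![⟨{0, 0, 0}, rfl⟩, ⟨{0, 0, 1}, rfl⟩, ⟨{0, 0, 2}, rfl⟩, ⟨{0, 1, 1}, rfl⟩, ⟨{0, 1, 2}, rfl⟩,
    ⟨{0, 2, 2}, rfl⟩, ⟨{1, 1, 1}, rfl⟩, ⟨{1, 1, 2}, rfl⟩, ⟨{1, 2, 2}, rfl⟩, ⟨{2, 2, 2}, rfl⟩]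

theorem toSym_bij : Function.Bijective toSym := by decide +kernel

theorem veroneseVec_toSym (v : Fin 3 → ℂ) (μ : Fin 10) : veroneseVec 2 3 v (toSym μ) = nu v μ := by
  have h : ∀ a b c : Fin 3, (∀ h : Multiset.card ({a, b, c} : Multiset (Fin 3)) = 3,
      veroneseVec 2 3 v ⟨{a, b, c}, h⟩ = v a * v b * v c) := by
    intro a b c h
    simp [veroneseVec, mul_assoc]
  fin_cases μ
  · have e : nu v 0 = v 0 ^ 3 := by simp [nu, ex]
    exact (h 0 0 0 rfl).trans ((by ring : _ = _).trans e.symm)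
  · have e : nu v 1 = v 0 ^ 2 * v 1 := by simp [nu, ex]
    exact (h 0 0 1 rfl).trans ((by ring : _ = _).trans e.symm)
  · have e : nu v 2 = v 0 ^ 2 * v 2 := by simp [nu, ex]
    exact (h 0 0 2 rfl).trans ((by ring : _ = _).trans e.symm)
  · have e : nu v 3 = v 0 * v 1 ^ 2 := by simp [nu, ex]
    exact (h 0 1 1 rfl).trans ((by ring : _ = _).trans e.symm)
  · have e : nu v 4 = v 0 * v 1 * v 2 := by simp [nu, ex]
    exact (h 0 1 2 rfl).trans ((by ring : _ = _).trans e.symm)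
  · have e : nu v 5 = v 0 * v 2 ^ 2 := by simp [nu, ex]
    exact (h 0 2 2 rfl).trans ((by ring : _ = _).trans e.symm)
  · have e : nu v 6 = v 1 ^ 3 := by simp [nu, ex]
    exact (h 1 1 1 rfl).trans ((by ring : _ = _).trans e.symm)
  · have e : nu v 7 = v 1 ^ 2 * v 2 := by simp [nu, ex]
    exact (h 1 1 2 rfl).trans ((by ring : _ = _).trans e.symm)
  · have e : nu v 8 = v 1 * v 2 ^ 2 := by simp [nu, ex]
    exact (h 1 2 2 rfl).trans ((by ring : _ = _).trans e.symm)
  · have e : nu v 9 = v 2 ^ 3 := by simp [nu, ex]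
    exact (h 2 2 2 rfl).trans ((by ring : _ = _).trans e.symm)

/-- The change of coordinates from monomials indexed by multisets to those indexed by `Fin 10`. -/
noncomputable def eSym : (Sym (Fin 3) 3 → ℂ) ≃ₗ[ℂ] (Fin 10 → ℂ) :=
  LinearEquiv.funCongrLeft ℂ ℂ (Equiv.ofBijective toSym toSym_bij)

theorem eSym_veroneseVec (v : Fin 3 → ℂ) : eSym (veroneseVec 2 3 v) = nu v := by
  ext μ
  exact veroneseVec_toSym v μ

theorem isVeroneseVariety_Vset (G : Matrix (Fin 10) (Fin 10) ℂ) (hG : G.det ≠ 0) :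
    IsVeroneseVariety 2 3 (Vset G) := by
  have hu : IsUnit G.det := isUnit_iff_ne_zero.mpr hG
  let L : (Fin 10 → ℂ) ≃ₗ[ℂ] (Fin 10 → ℂ) :=
    Matrix.toLin'OfInv (Matrix.nonsing_inv_mul G hu) (Matrix.mul_nonsing_inv G hu)
  refine ⟨eSym.trans L, ?_⟩
  have hL : ∀ v : Fin 3 → ℂ, (eSym.trans L) (veroneseVec 2 3 v) = G.mulVec (nu v) := by
    intro v
    rw [LinearEquiv.trans_apply]
    have : eSym (veroneseVec 2 3 v) = nu v := eSym_veroneseVec v
    rw [this]
    rfl
  ext P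
  constructor
  · rintro ⟨v, hv, h, rfl⟩
    refine ⟨v, hv, by rw [hL]; exact h, ?_⟩
    congr 1
    exact (hL v).symm
  · rintro ⟨v, hv, h, rfl⟩
    refine ⟨v, hv, by rw [← hL]; exact h, ?_⟩
    congr 1
    exact hL v

/-- Through thirteen general points of projective nine-space there pass two distinct cubic
Veronese surfaces which meet in a finite set. -/
theorem result :
    HoldsForGeneral (NN 2 3 + 2 + 1) (NN 2 3) (fun P =>
      ∃ V V' : Set (ℙ ℂ (Fin (NN 2 3) → ℂ)),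
        IsVeroneseVariety 2 3 V ∧ IsVeroneseVariety 2 3 V' ∧ V ≠ V' ∧
        (∀ i, P i ∈ V) ∧ (∀ i, P i ∈ V') ∧ (V ∩ V').Finite) := by
  change HoldsForGeneral 13 10 (fun P => ∃ V V' : Set (ℙ ℂ (Fin 10 → ℂ)),
        IsVeroneseVariety 2 3 V ∧ IsVeroneseVariety 2 3 V' ∧ V ≠ V' ∧
        (∀ i, P i ∈ V) ∧ (∀ i, P i ∈ V') ∧ (V ∩ V').Finite)
  obtain ⟨g, hg0, hg⟩ := exists_two_solutions
  obtain ⟨F₀, hF₀, hF₀p⟩ := exists_F0 g hg0
  obtain ⟨d, F, hF, hFh, hFp⟩ := exists_multihomogeneous F₀ hF₀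
  refine ⟨d, F, hF, hFh, fun P hP => ?_⟩
  obtain ⟨l, hl, hlP⟩ := hFp (fun i => (P i).rep) hP
  let p : Fin 13 → Fin 10 → ℂ := fun i j => l i * (P i).rep j
  obtain ⟨hdet, hgp⟩ := hF₀p p hlP
  obtain ⟨q, q', hq, hq', hδ⟩ := hg _ hgp
  have hN : (Nm q).det ≠ 0 := left_ne_zero_of_mul (left_ne_zero_of_mul hδ)
  have hN' : (Nm q').det ≠ 0 := right_ne_zero_of_mul (left_ne_zero_of_mul hδ)
  have hNu : IsUnit (Nm q).det := isUnit_iff_ne_zero.mpr hN
  have hNu' : IsUnit (Nm q').det := isUnit_iff_ne_zero.mpr hN'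
  have hG : (Pm p * (Nm q)⁻¹).det ≠ 0 := by
    rw [Matrix.det_mul, Matrix.det_nonsing_inv, Ring.inverse_eq_inv']
    exact mul_ne_zero hdet (inv_ne_zero hN)
  have hG' : (Pm p * (Nm q')⁻¹).det ≠ 0 := by
    rw [Matrix.det_mul, Matrix.det_nonsing_inv, Ring.inverse_eq_inv']
    exact mul_ne_zero hdet (inv_ne_zero hN')
  have hfin := inter_finite (Pm p) q q' hdet hδ
  -- each point lies on both surfaces
  have hmem : ∀ (s : Fin 2) (Q : Fin 10 → Fin 3 → ℂ), IsUnit (Nm Q).det →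
      (∀ k μ, ∑ i : Fin 10, (Av p (k, i) / (Pm p).det) * nu (Q i) μ = nu (U s k) μ) →
      ∀ i, P i ∈ Vset (Pm p * (Nm Q)⁻¹) := by
    intro s Q hQu hQ i
    have hcols : ∃ v : Fin 3 → ℂ, (Pm p * (Nm Q)⁻¹).mulVec (nu v) = p i := by
      refine Fin.addCases (m := 10) (n := 3) (motive := fun i =>
        ∃ v : Fin 3 → ℂ, (Pm p * (Nm Q)⁻¹).mulVec (nu v) = p i) (fun i => ?_) (fun k => ?_) i
      · refine ⟨Q i, ?_⟩
        have h1 : nu (Q i) = (Nm Q).mulVec (Pi.single i 1) := by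
          ext μ
          simp [Nm]
        rw [h1, Matrix.mulVec_mulVec, Matrix.mul_assoc, Matrix.nonsing_inv_mul _ hQu,
          Matrix.mul_one]
        ext μ
        simp [Pm]
      · refine ⟨U s k, ?_⟩
        have h1 : nu (U s k) = (Nm Q).mulVec (fun i => Av p (k, i) / (Pm p).det) := by
          ext μ
          rw [← hQ k μ]
          simp only [Matrix.mulVec, dotProduct, Nm, Matrix.of_apply]
          refine Finset.sum_congr rfl fun i _ => ?_
          ring
        rw [h1, Matrix.mulVec_mulVec, Matrix.mul_assoc, Matrix.nonsing_inv_mul _ hQu,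
          Matrix.mul_one]
        have h2 : (fun i => Av p (k, i) / (Pm p).det) =
            (Pm p).det⁻¹ • (Pm p).adjugate.mulVec (p (Fin.natAdd 10 k)) := by
          ext i
          simp [Av, div_eq_inv_mul]
        rw [h2, Matrix.mulVec_smul, Matrix.mulVec_mulVec, Matrix.mul_adjugate, Matrix.smul_mulVec,
          Matrix.one_mulVec, smul_smul, inv_mul_cancel₀ hdet, one_smul]
    obtain ⟨v, hv⟩ := hcols
    have hpi : p i ≠ 0 := by
      intro h0
      apply (P i).rep_nonzero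
      ext j
      have := congrFun h0 j
      simpa [p, hl i] using this
    have hne : (Pm p * (Nm Q)⁻¹).mulVec (nu v) ≠ 0 := by
      rw [hv]
      exact hpi
    refine ⟨v, ?_, hne, ?_⟩
    · rintro rfl
      apply hne
      rw [nu_zero, Matrix.mulVec_zero]
    · rw [← (P i).mk_rep, Projectivization.mk_eq_mk_iff']
      refine ⟨(l i)⁻¹, ?_⟩
      rw [hv]
      ext j
      simp [p, hl i]
  refine ⟨Vset (Pm p * (Nm q)⁻¹), Vset (Pm p * (Nm q')⁻¹), isVeroneseVariety_Vset _ hG,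
    isVeroneseVariety_Vset _ hG', ?_, hmem 0 q hNu hq, hmem 1 q' hNu' hq', hfin⟩
  intro heq
  rw [← heq, Set.inter_self] at hfin
  exact Vset_infinite _ hG hfin

end Pool.Agent.Results.MP_f58153_ag.CubicVeroneseSurfaces
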